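import Pool.Agent.H1.Mono.Targets

/-!
helper47: module AD of the board of helper1 (MP_c62aed_lc): if every resolution refutation of `F`
has a clause with more than `d` literals, then Duplicator survives in the width-`d` game
(Atserias and Dalmau).
-/

open Finset Pool.Agent.H73.Xor Pool.Agent.H1.Mono

namespace Pool.Agent.H47.Mono

/-- derivable by clauses with at most `d` literals -/
inductive Der {ν : ℕ} (F : CNF ν) (d : ℕ) : Clause ν → Prop
  | ax (C D : Clause ν) (hC : C.card ≤ d) (hD : D ∈ F) (hs : D ⊆ C) : Der F d C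
  | res (C A B : Clause ν) (i : Fin ν) (hC : C.card ≤ d) (hA : Der F d A) (hB : Der F d B)
      (h1 : A ⊆ insert (i, true) C) (h2 : B ⊆ insert (i, false) C) : Der F d C

/-- `C` is justified by members of the list `L` -/
def Just {ν : ℕ} (F : CNF ν) (d : ℕ) (L : List (Clause ν)) (C : Clause ν) : Prop :=
  C.card ≤ d ∧ ((∃ D ∈ F, D ⊆ C) ∨
    ∃ i : Fin ν, ∃ A ∈ L, ∃ B ∈ L, A ⊆ insert (i, true) C ∧ B ⊆ insert (i, false) C)

/-- every member of the list is justified by its tail -/
def Good {ν : ℕ} (F : CNF ν) (d : ℕ) : List (Clause ν) → Prop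
  | [] => True
  | C :: L => Just F d L C ∧ Good F d L

lemma Just.mono {ν : ℕ} {F : CNF ν} {d : ℕ} {L L' : List (Clause ν)} {C : Clause ν}
    (h : Just F d L C) (hL : ∀ A ∈ L, A ∈ L') : Just F d L' C := by
  refine ⟨h.1, ?_⟩
  rcases h.2 with h | ⟨i, A, hA, B, hB, h1, h2⟩
  · exact Or.inl h
  · exact Or.inr ⟨i, A, hL A hA, B, hL B hB, h1, h2⟩

lemma Good.append {ν : ℕ} {F : CNF ν} {d : ℕ} : ∀ {L L' : List (Clause ν)},
    Good F d L → Good F d L' → Good F d (L ++ L')
  | [], _, _, h' => h'
  | _ :: _, _, h, h' =>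
    ⟨h.1.mono fun _ hA => List.mem_append.2 (Or.inl hA), Good.append h.2 h'⟩

lemma Der.good {ν : ℕ} {F : CNF ν} {d : ℕ} {C : Clause ν} (h : Der F d C) :
    ∃ L, Good F d (C :: L) := by
  induction h with
  | ax C D hC hD hs => exact ⟨[], ⟨hC, Or.inl ⟨D, hD, hs⟩⟩, trivial⟩
  | res C A B i hC _ _ h1 h2 ihA ihB =>
    obtain ⟨LA, hLA⟩ := ihA
    obtain ⟨LB, hLB⟩ := ihB
    refine ⟨(A :: LA) ++ (B :: LB), ⟨hC, Or.inr ⟨i, A, ?_, B, ?_, h1, h2⟩⟩, hLA.append hLB⟩
    · simp
    · simp

lemma Good.get {ν : ℕ} {F : CNF ν} {d : ℕ} : ∀ {L : List (Clause ν)}, Good F d L →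
    ∀ (j : ℕ) (hj : j < L.length), (L[j]).card ≤ d ∧ ((∃ D ∈ F, D ⊆ L[j]) ∨
      ∃ i : Fin ν, ∃ (a : ℕ) (ha : a < L.length) (b : ℕ) (hb : b < L.length), j < a ∧ j < b ∧
        L[a] ⊆ insert (i, true) L[j] ∧ L[b] ⊆ insert (i, false) L[j])
  | C :: L, h, 0, _ => by
    refine ⟨h.1.1, ?_⟩
    rcases h.1.2 with h | ⟨i, A, hA, B, hB, h1, h2⟩
    · exact Or.inl h
    · obtain ⟨a, ha, rfl⟩ := List.getElem_of_mem hA
      obtain ⟨b, hb, rfl⟩ := List.getElem_of_mem hB
      exact Or.inr ⟨i, a + 1, by simpa using ha, b + 1, by simpa using hb, by omega, by omega,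
        by simpa using h1, by simpa using h2⟩
  | C :: L, h, j + 1, hj => by
    have hj' : j < L.length := by simpa using hj
    obtain ⟨h1, h2⟩ := Good.get h.2 j hj'
    refine ⟨by simpa using h1, ?_⟩
    rcases h2 with h2 | ⟨i, a, ha, b, hb, hja, hjb, h3, h4⟩
    · exact Or.inl (by simpa using h2)
    · exact Or.inr ⟨i, a + 1, by simpa using ha, b + 1, by simpa using hb, by omega, by omega,
        by simpa using h3, by simpa using h4⟩

lemma Good.refutation {ν : ℕ} {F : CNF ν} {d : ℕ} {L : List (Clause ν)} (h : Good F d L)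
    (h0 : ∅ ∈ L) : ∃ π : Refutation F L.length, ∀ t, (π.cl t).card ≤ d := by
  classical
  have hlt : ∀ t : Fin L.length, L.length - 1 - t.1 < L.length := fun t => by
    have := t.2
    omega
  have key : ∀ t : Fin L.length, ∃ o : Option (Fin ν × Fin L.length × Fin L.length),
      (o = none → ∃ D ∈ F, D ⊆ L[L.length - 1 - t.1]'(hlt t)) ∧
      (∀ i p q, o = some (i, p, q) → p < t ∧ q < t ∧
        L[L.length - 1 - p.1]'(hlt p) ⊆ insert (i, true) (L[L.length - 1 - t.1]'(hlt t)) ∧
        L[L.length - 1 - q.1]'(hlt q) ⊆ insert (i, false) (L[L.length - 1 - t.1]'(hlt t))) := by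
    intro t
    have ht := t.2
    rcases (h.get (L.length - 1 - t.1) (hlt t)).2 with h1 | ⟨i, a, ha, b, hb, hja, hjb, h1, h2⟩
    · exact ⟨none, fun _ => h1, fun i p q hh => absurd hh (by simp)⟩
    · refine ⟨some (i, ⟨L.length - 1 - a, by omega⟩, ⟨L.length - 1 - b, by omega⟩),
        fun hh => absurd hh (by simp), ?_⟩
      intro i' p q hh
      simp only [Option.some.injEq, Prod.mk.injEq] at hh
      obtain ⟨rfl, rfl, rfl⟩ := hh
      have ea : L.length - 1 - (L.length - 1 - a) = a := by omega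
      have eb : L.length - 1 - (L.length - 1 - b) = b := by omega
      refine ⟨?_, ?_, ?_, ?_⟩
      · show L.length - 1 - a < t.1
        omega
      · show L.length - 1 - b < t.1
        omega
      · simp only [ea]
        exact h1
      · simp only [eb]
        exact h2
  choose just hleaf hstep using key
  obtain ⟨r, hr, hr0⟩ := List.getElem_of_mem h0
  have er : L.length - 1 - (L.length - 1 - r) = r := by omega
  refine ⟨{ cl := fun t => L[L.length - 1 - t.1]'(hlt t)
            just := just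
            leaf := hleaf
            step := hstep
            root := ⟨L.length - 1 - r, by omega⟩
            root_empty := ?_ }, ?_⟩
  · simp only [er]
    exact hr0
  · intro t
    exact (h.get (L.length - 1 - t.1) (hlt t)).1

lemma der_empty {ν : ℕ} {F : CNF ν} {d : ℕ} (h : Der F d ∅) :
    ∃ (N : ℕ) (π : Refutation F N), ∀ t, (π.cl t).card ≤ d := by
  obtain ⟨L, hL⟩ := h.good
  obtain ⟨π, hπ⟩ := hL.refutation (by simp)
  exact ⟨_, π, hπ⟩

/-- module AD -/
theorem ad : AD_target := by
  classical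
  intro ν F d hF hπ
  refine ⟨fun I ρ => ∀ C, Der F d C → (∀ l ∈ C, l.1 ∈ I) → Satisfies ρ C, ?_, ?_, ?_, ?_, ?_⟩
  · intro ρ C hC hI
    exfalso
    have hC0 : C = ∅ := by
      rw [Finset.eq_empty_iff_forall_notMem]
      intro l hl
      exact absurd (hI l hl) (Finset.notMem_empty _)
    subst hC0
    obtain ⟨N, π, hcard⟩ := der_empty hC
    obtain ⟨t, ht⟩ := hπ N π
    have := hcard t
    omega
  · intro I J ρ h hJ C hC hl
    exact h C hC fun l hl' => hJ (hl l hl')
  · intro I ρ ρ' h hρ C hC hl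
    obtain ⟨l, hlC, hl'⟩ := h C hC hl
    exact ⟨l, hlC, by rw [← hρ _ (hl l hlC)]; exact hl'⟩
  · intro I ρ h hI i
    by_cases hi : i ∈ I
    · refine ⟨ρ, fun _ _ => rfl, ?_⟩
      rw [Finset.insert_eq_of_mem hi]
      exact h
    · by_contra hcon
      push Not at hcon
      have key : ∀ b : Bool, ∃ C, Der F d C ∧
          C ⊆ insert (i, !b) (I.image fun j => (j, !ρ j)) := by
        intro b
        have h1 := hcon (Function.update ρ i b) (fun j hj => by
          rw [Function.update_of_ne]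
          rintro rfl
          exact hi hj)
        obtain ⟨C, hC, hCI, hns⟩ := h1
        refine ⟨C, hC, fun l hl => ?_⟩
        have h2 : Function.update ρ i b l.1 ≠ l.2 := fun h3 => hns ⟨l, hl, h3⟩
        rcases Finset.mem_insert.1 (hCI l hl) with h3 | h3
        · rw [h3, Function.update_self] at h2
          refine Finset.mem_insert.2 (Or.inl ?_)
          refine Prod.ext h3 ?_
          show l.2 = !b
          revert h2
          cases b <;> cases l.2 <;> simp
        · have h4 : l.1 ≠ i := by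
            rintro h5
            exact hi (h5 ▸ h3)
          rw [Function.update_of_ne h4] at h2
          refine Finset.mem_insert.2 (Or.inr (Finset.mem_image.2 ⟨l.1, h3, ?_⟩))
          refine Prod.ext rfl ?_
          show (!ρ l.1) = l.2
          revert h2
          cases ρ l.1 <;> cases l.2 <;> simp
      obtain ⟨C0, hC0, hs0⟩ := key false
      obtain ⟨C1, hC1, hs1⟩ := key true
      have hcard : (I.image fun j => (j, !ρ j)).card ≤ d := card_image_le.trans hI.le
      have hD : Der F d (I.image fun j => (j, !ρ j)) :=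
        Der.res _ C0 C1 i hcard hC0 hC1 hs0 hs1
      obtain ⟨l, hl, hl'⟩ := h _ hD (fun l hl => by
        obtain ⟨j, hj, rfl⟩ := Finset.mem_image.1 hl
        exact hj)
      obtain ⟨j, hj, rfl⟩ := Finset.mem_image.1 hl
      simp at hl'
  · intro I ρ h C hC hl
    exact h C (Der.ax C C (hF C hC) hC (Finset.Subset.refl _)) hl

end Pool.Agent.H47.Mono
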